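import Pool.Agent.V11191.KB.Fin

/-!
# Multi-parameter multiple ergodic averages: Kolmogorov extensions of discrete spectrum factors

The definitions are in `Pool/Agent/V11191/KB/Fin.lean`:

* `boxAvg T P f x M` is the average of `∏_j f_j (T_1^(P_1j(m)) ⋯ T_d^(P_dj(m)) x)` over `m` in the
  box `[0, M_1) × ⋯ × [0, M_k)` (as in the frozen statement of the problem);
* `IsKExtension 𝒴 μ T`: the maps `T_1, …, T_d` are commuting, invertible, bi-measurable and measure
  preserving, `𝒴` is an invariant σ-algebra, and for some real vector `λ` with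
  `⟨a, λ⟩ = ∑ a_i λ_i ≠ 0` for all nonzero integer vectors `a` there is a σ-algebra `𝒜` containing
  `𝒴` such that `(T^a)⁻¹ 𝒜 ⊆ 𝒜` when `⟨a, λ⟩ ≤ 0`, the `(T^a)⁻¹ 𝒜` generate modulo `μ`, and their
  intersection is contained in `𝒴` modulo `μ`. For `d = 1` and `𝒴` trivial: `T_1` (or its inverse)
  is a `K`-automorphism;
* `HasDiscreteSpectrum 𝒴 μ T`: the linear combinations of the bounded joint eigenfunctions that are
  `𝒴`-measurable are dense, in the `L¹`-norm, in the bounded `𝒴`-measurable functions. The trivial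
  factor has this property (`discreteSpectrum_trivial` below).
-/

set_option autoImplicit false

open Filter Topology MeasureTheory
open scoped ENNReal

namespace Pool.Agent.Results.MP_f720ae_an.KolmogorovBoxes

open Pool.Agent.V11191.KB

/-- The trivial factor has discrete spectrum. -/
theorem discreteSpectrum_trivial {X : Type} [MeasurableSpace X] (μ : Measure X) {d : ℕ}
    (T : Fin d → Equiv.Perm X) : HasDiscreteSpectrum ⊥ μ T := disc_bot

/-- Let `T_1, …, T_d` generate a Kolmogorov extension of a factor `𝒴` with discrete spectrum (for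
example, of the trivial factor), let `P_ij ∈ ℤ[m_1, …, m_k]` be polynomials of degree at most one
and `f_1, …, f_n ∈ L^∞`. Then for almost every `x` the averages of
`∏_j f_j (T_1^(P_1j(m)) ⋯ T_d^(P_dj(m)) x)` over the boxes `[0, M_1) × ⋯ × [0, M_k)` converge as
`min M_i → ∞` (unrestricted boxes). -/
theorem result (d k n : ℕ) (X : Type) (𝒴 : MeasurableSpace X) [MeasurableSpace X]
    (μ : Measure X) [IsProbabilityMeasure μ] (T : Fin d → Equiv.Perm X)
    (hT : IsKExtension 𝒴 μ T) (hD : HasDiscreteSpectrum 𝒴 μ T)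
    (P : Fin d → Fin n → MvPolynomial (Fin k) ℤ) (hP : ∀ i j, (P i j).totalDegree ≤ 1)
    (f : Fin n → X → ℂ) (hf : ∀ j, MemLp (f j) ∞ μ) :
    ∀ᵐ x ∂μ, ∃ L : ℂ, Tendsto (boxAvg T P f x) atTop (𝓝 L) :=
  main_disc hT hD P hP hf

end Pool.Agent.Results.MP_f720ae_an.KolmogorovBoxes
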