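import Pool.Agent.V11191.KB.CharFin

/-!
# The base of a Kolmogorov extension is characteristic for multi-parameter averages

The definitions are in `Pool/Agent/V11191/KB/Fin.lean`:

* `boxAvg T P f x M` is the average of `∏_j f_j (T_1^(P_1j(m)) ⋯ T_d^(P_dj(m)) x)` over `m` in the
  box `[0, M_1) × ⋯ × [0, M_k)` (as in the frozen statement of the problem);
* `IsKExtension 𝒴 μ T`: the maps `T_1, …, T_d` are commuting, invertible, bi-measurable and measure
  preserving, `𝒴` is an invariant σ-algebra, and for some real vector `λ` with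
  `⟨a, λ⟩ = ∑ a_i λ_i ≠ 0` for all nonzero integer vectors `a` there is a σ-algebra `𝒜` containing
  `𝒴` such that `(T^a)⁻¹ 𝒜 ⊆ 𝒜` when `⟨a, λ⟩ ≤ 0`, the `(T^a)⁻¹ 𝒜` generate modulo `μ`, and their
  intersection is contained in `𝒴` modulo `μ`.

Nothing is assumed about the factor `𝒴`.
-/

set_option autoImplicit false

open Filter Topology MeasureTheory
open scoped ENNReal

namespace Pool.Agent.Results.MP_f720ae_an.KolmogorovFactorBoxes

open Pool.Agent.V11191.KB

/-- Let `T_1, …, T_d` generate a Kolmogorov extension of an arbitrary factor `𝒴`, let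
`P_ij ∈ ℤ[m_1, …, m_k]` be polynomials of degree at most one such that the exponent vectors
`P_j = (P_1j, …, P_dj)`, `1 ≤ j ≤ n`, are nonconstant and have nonconstant differences, and let
`f_1, …, f_n ∈ L^∞`. Then for almost every `x` the difference of the averages for `f_1, …, f_n` and
for the conditional expectations `E(f_1 | 𝒴), …, E(f_n | 𝒴)` over the box
`[0, M_1) × ⋯ × [0, M_k)` tends to zero

* as `min M_i → ∞` (unrestricted boxes), if each `P_j` depends on each of the variables;
* for arbitrary such `P_j`, as `min M_i → ∞` and `log (max M_i) / min M_i → 0` (for example, for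
  cubes).

`𝓕` is any filter of boxes refining `min M_i → ∞`. -/
theorem result (d k n : ℕ) (X : Type) (𝒴 : MeasurableSpace X) [MeasurableSpace X]
    (μ : Measure X) [IsProbabilityMeasure μ] (T : Fin d → Equiv.Perm X)
    (hT : IsKExtension 𝒴 μ T)
    (P : Fin d → Fin n → MvPolynomial (Fin k) ℤ) (hP : ∀ i j, (P i j).totalDegree ≤ 1)
    (hne : ∀ j, ∃ l i, MvPolynomial.coeff (Finsupp.single l 1) (P i j) ≠ 0)
    (hdist : ∀ j j', j ≠ j' → ∃ l i, MvPolynomial.coeff (Finsupp.single l 1) (P i j) ≠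
      MvPolynomial.coeff (Finsupp.single l 1) (P i j'))
    (𝓕 : Filter (Fin k → ℕ)) (h𝓕 : 𝓕 ≤ atTop)
    (hor : (∀ j l, ∃ i, MvPolynomial.coeff (Finsupp.single l 1) (P i j) ≠ 0) ∨
      ∀ δ : ℝ, 0 < δ → ∀ᶠ M in 𝓕, ∀ i j, Real.log (M i) ≤ δ * M j)
    (f : Fin n → X → ℂ) (hf : ∀ j, MemLp (f j) ∞ μ) :
    ∀ᵐ x ∂μ, Tendsto (fun M => boxAvg T P f x M - boxAvg T P (fun j => μ[f j | 𝒴]) x M)
      𝓕 (𝓝 0) :=
  main_char hT P hP hne hdist h𝓕 hor hf

end Pool.Agent.Results.MP_f720ae_an.KolmogorovFactorBoxes
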