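import Pool.Agent.V11191.KB.Fin

/-!
# Multi-parameter multiple ergodic averages of Kolmogorov extensions: arbitrary groups

A group `G` acts by measure preserving bijections `Φ g` of a probability space `(X, μ)`,
`ℓ : G → ℝ` is a homomorphism and `𝒴 ⊆ 𝒜` are σ-algebras, `𝒴` is invariant, and

* `(Φ g)⁻¹ 𝒜 ⊆ 𝒜` whenever `ℓ g ≤ 0`,
* the `(Φ g)⁻¹ 𝒜`, `g ∈ G`, generate all measurable sets modulo `μ`,
* the intersection of the `(Φ g)⁻¹ 𝒜`, `g ∈ G`, is contained in `𝒴` modulo `μ`,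

that is, the action is a Kolmogorov extension of its factor `𝒴` (a `K`-action for trivial `𝒴`).
`G` need not be commutative or nilpotent. For example, for `T_i = Φ (t_i)` with `ℓ (t_i) ≠ 0` and
distinct integer vectors `(a_1j, …, a_kj)` with nonzero entries the theorem applies to the averages
of `∏_j f_j (T_1^(a_1j m_1) ⋯ T_k^(a_kj m_k) x)`.
-/

set_option autoImplicit false

open Filter Topology MeasureTheory
open scoped ENNReal

namespace Pool.Agent.Results.MP_f720ae_an.KolmogorovGroups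

open Pool.Agent.V11191.KB

/-- Let `G` act on `(X, μ)` as above. Let `c_j, b_jl ∈ G` be such that `b_jl = 1` whenever
`ℓ (b_jl) = 0`, for each `j` some `b_jl ≠ 1`, and for `i ≠ j` some `ℓ (b_il) ≠ ℓ (b_jl)`. Suppose
that all `b_jl` are `≠ 1`, or that `𝒴` is trivial (then `E(f_j | 𝒴)` is the constant `∫ f_j`). Then
for `f_1, …, f_n ∈ L^∞` and almost every `x` the averages of
`∏_j f_j (c_j b_j1^(m_1) ⋯ b_jk^(m_k) x)` and of
`∏_j E(f_j | 𝒴) (c_j b_j1^(m_1) ⋯ b_jk^(m_k) x)` over the boxes `[0, M_1) × ⋯ × [0, M_k)` have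
difference tending to zero as `min M_i → ∞` (unrestricted boxes). -/
theorem result (k n : ℕ) (X G : Type) [Group G] (𝒜 𝒴 : MeasurableSpace X)
    [mX : MeasurableSpace X] (μ : Measure X) [IsProbabilityMeasure μ] (Φ : G →* Equiv.Perm X)
    (hΦ : ∀ g, MeasurePreserving (Φ g) μ μ)
    (ℓ : G → ℝ) (hℓ : ∀ g h, ℓ (g * h) = ℓ g + ℓ h)
    (h𝒜 : 𝒜 ≤ mX) (h𝒴 : 𝒴 ≤ 𝒜) (hinv : ∀ g, Measurable[𝒴, 𝒴] (Φ g : X → X))
    (hmono : ∀ g, ℓ g ≤ 0 → 𝒜.comap (Φ g : X → X) ≤ 𝒜)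
    (hgen : ∀ B, MeasurableSet[mX] B →
      ∃ B', MeasurableSet[⨆ g, 𝒜.comap (Φ g : X → X)] B' ∧ B =ᵐ[μ] B')
    (htail : ∀ B, (∀ g, MeasurableSet[𝒜.comap (Φ g : X → X)] B) →
      ∃ B', MeasurableSet[𝒴] B' ∧ B =ᵐ[μ] B')
    (c : Fin n → G) (b : Fin n → Fin k → G) (hb1 : ∀ j l, ℓ (b j l) = 0 → b j l = 1)
    (hb3 : ∀ j, ∃ l, b j l ≠ 1) (hb2 : ∀ i j, i ≠ j → ∃ l, ℓ (b i l) ≠ ℓ (b j l))
    (hor : (∀ j l, b j l ≠ 1) ∨ ∀ B, MeasurableSet[𝒴] B → μ B = 0 ∨ μ B = 1)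
    (f : Fin n → X → ℂ) (hf : ∀ j, MemLp (f j) ∞ μ) :
    ∀ᵐ x ∂μ, Tendsto (fun M : Fin k → ℕ => (∏ j, (M j : ℂ))⁻¹ *
      ∑ m ∈ Fintype.piFinset (fun j => Finset.range (M j)),
        (∏ j : Fin n, f j (Φ (c j * (List.ofFn fun l : Fin k => b j l ^ m l).prod) x) -
          ∏ j : Fin n, (μ[f j | 𝒴]) (Φ (c j * (List.ofFn fun l : Fin k => b j l ^ m l).prod) x)))
      atTop (𝓝 0) := by
  have hK : Pool.Agent.TH784.KE.KExt μ 𝒜 𝒴 Φ ℓ := ⟨hΦ, ⟨hℓ, h𝒜, hmono⟩, ⟨h𝒴, hinv⟩, hgen, htail⟩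
  have hYX : 𝒴 ≤ mX := h𝒴.trans h𝒜
  choose g hg hfg using fun j => Pool.Agent.W761.Gauss.BM_of_memLp (hf j)
  have hgi : ∀ j, Integrable (g j) μ := fun j => by
    obtain ⟨h, C, hC⟩ := hg j
    exact Integrable.of_bound h.aestronglyMeasurable C (Eventually.of_forall hC)
  have hex : ∃ e : Fin n → X → ℂ, (∀ j, Pool.Agent.W761.Box.BM (e j)) ∧
      (∀ j, Measurable[𝒴] (e j)) ∧ (∀ j, e j =ᵐ[μ] μ[g j | 𝒴]) ∧
      (∀ j, ∀ B : Set X, MeasurableSet[𝒴] B → ∫ x in B, (g j x - e j x) ∂μ = 0) ∧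
      ((∀ j, ∃ z : ℂ, e j = fun _ => z) ∨ (∀ j l, b j l ≠ 1)) := by
    rcases hor with h | h
    · choose e he heY hee hfe using fun j =>
        Pool.Agent.TH784.KE.exists_cond (μ := μ) hYX (hg j)
      exact ⟨e, he, heY, hee, hfe, Or.inr h⟩
    · have hint : ∀ j, ∀ B : Set X, MeasurableSet[𝒴] B →
          ∫ x in B, (g j x - ∫ y, g j y ∂μ) ∂μ = 0 := by
        intro j B hB
        rcases h B hB with h0 | h1
        · rw [Measure.restrict_eq_zero.2 h0, integral_zero_measure]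
        · have h2 : μ.restrict B = μ := by
            refine Measure.restrict_eq_self_of_ae_mem ?_
            exact mem_ae_iff.2 ((prob_compl_eq_zero_iff (hYX _ hB)).2 h1)
          rw [h2, integral_sub (hgi j) (integrable_const _), integral_const]
          simp
      refine ⟨fun j _ => ∫ y, g j y ∂μ,
        fun j => ⟨measurable_const, ‖∫ x, g j x ∂μ‖, fun x => le_rfl⟩,
        fun j => measurable_const, fun j => ?_, hint, Or.inl fun j => ⟨_, rfl⟩⟩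
      refine ae_eq_condExp_of_forall_setIntegral_eq hYX (hgi j)
        (fun s _ _ => (integrable_const _).integrableOn) (fun s hs _ => ?_)
        aestronglyMeasurable_const
      have h3 := hint j s hs
      rw [integral_sub (hgi j).integrableOn (integrable_const _)] at h3
      exact (sub_eq_zero.1 h3).symm
  obtain ⟨e, he, heY, hee, hfe, hcase⟩ := hex
  have hmain := char_gen hK c b hb1 hb2 hb3 hg he heY hfe hcase
  have h1 : ∀ᵐ x ∂μ, ∀ (m : Fin k → ℕ) (j : Fin n),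
      f j (Φ (c j * pw (b j) m) x) = g j (Φ (c j * pw (b j) m) x) := by
    rw [ae_all_iff]
    intro m
    rw [ae_all_iff]
    intro j
    exact (hΦ _).quasiMeasurePreserving.ae (hfg j)
  have h2 : ∀ᵐ x ∂μ, ∀ (m : Fin k → ℕ) (j : Fin n),
      (μ[f j | 𝒴]) (Φ (c j * pw (b j) m) x) = e j (Φ (c j * pw (b j) m) x) := by
    rw [ae_all_iff]
    intro m
    rw [ae_all_iff]
    intro j
    have h3 : μ[f j | 𝒴] =ᵐ[μ] e j := (condExp_congr_ae (hfg j)).trans (hee j).symm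
    exact (hΦ _).quasiMeasurePreserving.ae h3
  filter_upwards [hmain, h1, h2] with x hx hx1 hx2
  refine hx.congr fun N => ?_
  show (∏ j, (N j : ℂ))⁻¹ * ∑ m ∈ Fintype.piFinset (fun j => Finset.range (N j)),
    (∏ j : Fin n, g j (Φ (c j * pw (b j) m) x) - ∏ j : Fin n, e j (Φ (c j * pw (b j) m) x)) = _
  congr 1
  refine Finset.sum_congr rfl fun m _ => ?_
  congr 1
  · exact Finset.prod_congr rfl fun j _ => (hx1 m j).symm
  · exact Finset.prod_congr rfl fun j _ => (hx2 m j).symm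

end Pool.Agent.Results.MP_f720ae_an.KolmogorovGroups
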