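import Pool.Agent.V11191.KB.RedFin

/-!
# Linear forms and unrestricted boxes: reduction to the base of a Kolmogorov extension

The definitions are in `Pool/Agent/V11191/KB/Fin.lean`:

* `boxAvg T P f x M` is the average of `∏_j f_j (T_1^(P_1j(m)) ⋯ T_d^(P_dj(m)) x)` over `m` in the
  box `[0, M_1) × ⋯ × [0, M_k)` (as in the frozen statement of the problem);
* `IsKExtension 𝒴 μ T`: the maps `T_1, …, T_d` are commuting, invertible, bi-measurable and measure
  preserving, `𝒴` is an invariant σ-algebra, and for some real vector `λ` with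
  `⟨a, λ⟩ = ∑ a_i λ_i ≠ 0` for all nonzero integer vectors `a` there is a σ-algebra `𝒜` containing
  `𝒴` such that `(T^a)⁻¹ 𝒜 ⊆ 𝒜` when `⟨a, λ⟩ ≤ 0`, the `(T^a)⁻¹ 𝒜` generate modulo `μ`, and their
  intersection is contained in `𝒴` modulo `μ`.

Nothing else is assumed about the factor `𝒴`.
-/

set_option autoImplicit false

open Filter Topology MeasureTheory
open scoped ENNReal

namespace Pool.Agent.Results.MP_f720ae_an.KolmogorovReduction

open Pool.Agent.V11191.KB

/-- Let `T_1, …, T_d` generate a Kolmogorov extension of an arbitrary factor `𝒴`. Then the averages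
over unrestricted boxes, as `min M_i → ∞`, converge almost everywhere for all `k`, all `n`, all
polynomials `P_ij ∈ ℤ[m_1, …, m_k]` of degree at most one and all `f_1, …, f_n ∈ L^∞(μ)`, if and
only if they converge almost everywhere for all `k`, all `n`, all such polynomials and all bounded
`𝒴`-measurable functions. -/
theorem result (d : ℕ) (X : Type) (𝒴 : MeasurableSpace X) [MeasurableSpace X]
    (μ : Measure X) [IsProbabilityMeasure μ] (T : Fin d → Equiv.Perm X)
    (hT : IsKExtension 𝒴 μ T) :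
    (∀ (k n : ℕ) (P : Fin d → Fin n → MvPolynomial (Fin k) ℤ),
      (∀ i j, (P i j).totalDegree ≤ 1) → ∀ f : Fin n → X → ℂ, (∀ j, MemLp (f j) ∞ μ) →
        ∀ᵐ x ∂μ, ∃ L : ℂ, Tendsto (boxAvg T P f x) atTop (𝓝 L)) ↔
    (∀ (k n : ℕ) (P : Fin d → Fin n → MvPolynomial (Fin k) ℤ),
      (∀ i j, (P i j).totalDegree ≤ 1) → ∀ g : Fin n → X → ℂ, (∀ j, Measurable[𝒴] (g j)) →
        (∀ j, ∃ C : ℝ, ∀ x, ‖g j x‖ ≤ C) →
        ∀ᵐ x ∂μ, ∃ L : ℂ, Tendsto (boxAvg T P g x) atTop (𝓝 L)) :=
  ⟨fun h => main_red' hT h, fun h _ _ P hP _ hf => main_red hT h P hP hf⟩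

end Pool.Agent.Results.MP_f720ae_an.KolmogorovReduction
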